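import Pool.Agent.Lib_MP_331e4f_bw.Width
import Pool.Agent.Lib_MP_331e4f_al.PGroup
import Pool.Agent.Lib_MP_331e4f_al.Wobble
import Pool.Agent.Lib_MP_331e4f_al.Known
import Pool.Agent.Lib_MP_331e4f_am.Central

/-!
# Modules of bounded width over group algebras with `J(K[G]) = omega(K[G])`

The proof: let `F_0 ≤ F_1 ≤ ... ≤ F_N` be subspaces of an `F_p[P]`-module with increments of dimension
at most `C`, mapped one step up by the generators. A cut is a pair `U ≤ W` of subspaces in a window of
the filtration with `s U ≤ W` for all generators `s`; its size is the dimension of `W / U`. If some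
windows have no invariant subspace, let `c > 0` be the smallest size of cuts which occur in all windows
of some bounded length. Between two consecutive cuts of size `c` in a long window without smaller cuts
the generators satisfy Hall's condition `dim R ≤ dim (∑ s R)`; so matrices `A_s` over a finite field
exist for which all these blow-ups `∑ A_s ⊗ s` are injective (a counting argument). The matrix
`∑ A_s s` over `F_p[P]` is invertible, and its inverse, which has finite propagation, would embed
`W^d` into `U^d`.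
-/

namespace Pool.Agent.Results.MP_331e4f_al.BoundedWidth

open MP331e4f (AugRad)

universe u v w

/-- `F 0 ≤ F 1 ≤ ... ≤ F N` are finite-dimensional subspaces, every `s` in `S` and its inverse map
`F i` to `F (i + 1)`, and `F (i + 1)` is spanned by `F i` and at most `C` vectors. -/
def Narrow {p : ℕ} {P : Type*} [Group P] (S : Finset P) {M : Type*} [AddCommGroup M]
    [Module (ZMod p) M] (ρ : P →* (M →ₗ[ZMod p] M)) (C N : ℕ)
    (F : ℕ → Submodule (ZMod p) M) : Prop :=
  (F 0).FG ∧ ∀ i < N, F i ≤ F (i + 1) ∧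
    (∀ s ∈ S, (F i).map (ρ s) ≤ F (i + 1) ∧ (F i).map (ρ s⁻¹) ≤ F (i + 1)) ∧
    ∃ X : Finset M, X.card ≤ C ∧ F (i + 1) ≤ F i ⊔ Submodule.span (ZMod p) (X : Set M)

/-- `P` has narrow modules over the field with `p` elements: for some finite subset `S` of `P` and
some `C` there are, for all `N`, linear actions of `P` with a narrow filtration of length `N` such that
no subspace between `F 0` and `F N` is `S`-invariant. -/
def HasNarrow (p : ℕ) (P : Type*) [Group P] : Prop :=
  ∃ (S : Finset P) (C : ℕ), ∀ N : ℕ, ∃ (M : Type) (_ : AddCommGroup M) (_ : Module (ZMod p) M)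
    (ρ : P →* (M →ₗ[ZMod p] M)) (F : ℕ → Submodule (ZMod p) M), Narrow S ρ C N F ∧
      ¬ ∃ U : Submodule (ZMod p) M, F 0 ≤ U ∧ U ≤ F N ∧ ∀ s ∈ S, U.map (ρ s) ≤ U

/-- a permutation of the integers of bounded displacement -/
def BddDisp (f : Equiv.Perm ℤ) : Prop := ∃ r : ℤ, ∀ x : ℤ, |f x - x| ≤ r

theorem uniform {p : ℕ} [Fact p.Prime] {P : Type*} [Group P] (hP : AugRad (ZMod p) P)
    (S : Finset P) (C : ℕ) :
    ∃ N : ℕ, ∀ (M : Type u) [AddCommGroup M] [Module (ZMod p) M]
      (ρ : P →* (M →ₗ[ZMod p] M)) (F : ℕ → Submodule (ZMod p) M), Narrow S ρ C N F →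
      ∃ U : Submodule (ZMod p) M, F 0 ≤ U ∧ U ≤ F N ∧ ∀ s ∈ S, U.map (ρ s) ≤ U := by
  classical
  set P₀ : Subgroup P := Subgroup.closure (S : Set P) with hP₀
  have hS₀ : ∀ s ∈ S, s ∈ P₀ := fun s hs => Subgroup.subset_closure hs
  set T : Finset P₀ := insert 1 ((S.attach.image fun s => ⟨s.1, hS₀ s.1 s.2⟩) ∪
    (S.attach.image fun s => (⟨s.1, hS₀ s.1 s.2⟩ : P₀)⁻¹)) with hT
  have hTmem : ∀ t : P₀, t ∈ T ↔ t = 1 ∨ (t : P) ∈ S ∨ (t : P)⁻¹ ∈ S := by
    intro t
    rw [hT]
    simp only [Finset.mem_insert, Finset.mem_union, Finset.mem_image, Finset.mem_attach, true_and,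
      Subtype.exists]
    constructor
    · rintro (h | ⟨a, ha, h⟩ | ⟨a, ha, h⟩)
      · exact Or.inl h
      · right; left; rw [← h]; exact ha
      · right; right; rw [← h]; simpa using ha
    · rintro (h | h | h)
      · exact Or.inl h
      · right; left; exact ⟨t, h, rfl⟩
      · right; right; exact ⟨(t : P)⁻¹, h, by ext; simp⟩
  have hT1 : (1 : P₀) ∈ T := (hTmem 1).2 (Or.inl rfl)
  have hTinv : ∀ t ∈ T, t⁻¹ ∈ T := by
    intro t ht
    rw [hTmem] at ht ⊢
    rcases ht with rfl | h | h
    · left; simp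
    · right; right; simpa using h
    · right; left; simpa using h
  have hTgen : Subgroup.closure (T : Set P₀) = ⊤ := by
    rw [eq_top_iff]
    have h1 : (P₀.subtype ⁻¹' (S : Set P)) ⊆ (T : Set P₀) := by
      intro t ht
      exact (hTmem t).2 (Or.inr (Or.inl ht))
    have h2 : Subgroup.closure (P₀.subtype ⁻¹' (S : Set P)) = ⊤ := by
      rw [hP₀]
      exact Subgroup.closure_closure_coe_preimage
    rw [← h2]
    exact Subgroup.closure_mono h1
  obtain ⟨N, hN⟩ := MP331e4fBw.bounded_width.{u} (hP.restrict P₀) T hT1 hTinv hTgen C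
  refine ⟨N, fun M _ _ ρ F hF => ?_⟩
  obtain ⟨hF0, hF⟩ := hF
  have hfin : ∀ i ≤ N, FiniteDimensional (ZMod p) (F i) := by
    intro i
    induction i with
    | zero => intro _; exact Module.Finite.iff_fg.2 hF0
    | succ i ih =>
      intro hi
      have := ih (by omega)
      obtain ⟨_, _, X, _, hX⟩ := hF i (by omega)
      exact Submodule.finiteDimensional_of_le hX
  have hFil : MP331e4fBw.Fil (fun s : T => (ρ.comp P₀.subtype) s) C N F := by
    refine ⟨hfin, fun i hi => (hF i hi).1, fun i hi s => ?_, fun i hi => ?_⟩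
    · obtain ⟨h1, h2, -⟩ := hF i hi
      rcases (hTmem s.1).1 s.2 with h | h | h
      · have h3 : (ρ.comp P₀.subtype) s.1 = LinearMap.id := by rw [h, map_one]; rfl
        show (F i).map ((ρ.comp P₀.subtype) s.1) ≤ F (i + 1)
        rw [h3, Submodule.map_id]
        exact h1
      · exact (h2 _ h).1
      · have h3 := (h2 _ h).2
        rw [inv_inv] at h3
        exact h3
    · have i1 := hfin i (by omega)
      obtain ⟨_, _, X, hX, hle⟩ := hF i hi
      calc Module.finrank (ZMod p) (F (i + 1))
          ≤ Module.finrank (ZMod p) ↥(F i ⊔ Submodule.span (ZMod p) (X : Set M)) :=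
            Submodule.finrank_mono hle
        _ ≤ Module.finrank (ZMod p) (F i) +
            Module.finrank (ZMod p) ↥(Submodule.span (ZMod p) (X : Set M)) :=
            Submodule.finrank_add_le_finrank_add_finrank _ _
        _ ≤ Module.finrank (ZMod p) (F i) + C := by
            have := finrank_span_finset_le_card (R := ZMod p) X
            unfold Set.finrank at this
            omega
  obtain ⟨U, h1, h2, h3⟩ := hN M (ρ.comp P₀.subtype) F hFil
  exact ⟨U, h1, h2, fun s hs => h3 ⟨s, hS₀ s hs⟩⟩

theorem hasNarrow_of_bddDisp (p : ℕ) [Fact p.Prime] {P : Type*} [Group P] (hfg : Group.FG P)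
    (φ : P →* Equiv.Perm ℤ) (hφ : ∀ g, BddDisp (φ g)) (hinf : (Set.range φ).Infinite) :
    HasNarrow p P := by
  classical
  by_contra hno
  unfold HasNarrow at hno
  push Not at hno
  obtain ⟨S, hS⟩ := Group.fg_def.1 hfg
  choose rr hrr using hφ
  obtain ⟨r, hr⟩ : ∃ r : ℕ, ∀ g ∈ S, ∀ x, |φ g x - x| ≤ r := by
    refine ⟨S.sup fun g => (rr g).toNat, fun g hg x => ?_⟩
    have h1 : (rr g).toNat ≤ S.sup fun g => (rr g).toNat :=
      Finset.le_sup (f := fun g => (rr g).toNat) hg
    have h2 := hrr g x
    omega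
  have hrinv : ∀ g ∈ S, ∀ x, |φ g⁻¹ x - x| ≤ r := by
    intro g hg x
    have h1 := hr g hg (φ g⁻¹ x)
    have h2 : φ g (φ g⁻¹ x) = x := by simp
    rw [h2, abs_sub_comm] at h1
    exact h1
  obtain ⟨N, hN⟩ := hno S (2 * r)
  -- the permutation representation
  let ρ : P →* ((ℤ →₀ ZMod p) →ₗ[ZMod p] (ℤ →₀ ZMod p)) :=
    { toFun := fun g => Finsupp.lmapDomain (ZMod p) (ZMod p) (φ g)
      map_one' := by
        ext x y
        simp
      map_mul' := by
        intro a b
        ext x y
        simp [Module.End.mul_apply] }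
  have hρ : ∀ g x, ρ g (Finsupp.single x 1) = Finsupp.single (φ g x) 1 := by
    intro g x
    show Finsupp.lmapDomain (ZMod p) (ZMod p) (φ g) (Finsupp.single x 1) = _
    simp
  let F : ℤ → ℕ → Submodule (ZMod p) (ℤ →₀ ZMod p) := fun x i =>
    Submodule.span (ZMod p) ((fun y : ℤ => Finsupp.single y (1 : ZMod p)) ''
      Set.Icc (x - r * i) (x + r * i))
  have hmemF : ∀ (x : ℤ) (i : ℕ) (y : ℤ), x - r * i ≤ y → y ≤ x + r * i →
      Finsupp.single y (1 : ZMod p) ∈ F x i :=
    fun x i y h1 h2 => Submodule.subset_span ⟨y, ⟨h1, h2⟩, rfl⟩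
  have hmap : ∀ (x : ℤ) (i : ℕ) (g : P), (∀ y, |φ g y - y| ≤ r) → (F x i).map (ρ g) ≤ F x (i + 1) := by
    intro x i g hg
    rw [Submodule.map_span_le]
    rintro _ ⟨y, hy, rfl⟩
    rw [hρ]
    have h1 := abs_le.1 (hg y)
    rw [Set.mem_Icc] at hy
    apply hmemF
    · push_cast
      nlinarith
    · push_cast
      nlinarith
  have hnar : ∀ x, Narrow S ρ (2 * r) N (F x) := by
    intro x
    refine ⟨?_, fun i hi => ⟨?_, fun s hs => ⟨hmap x i s (hr s hs), hmap x i s⁻¹ (hrinv s hs)⟩,
      ?_⟩⟩
    · exact Submodule.fg_span ((Set.finite_Icc _ _).image _)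
    · refine Submodule.span_mono (Set.image_mono (Set.Icc_subset_Icc ?_ ?_))
      · push_cast
        nlinarith
      · push_cast
        nlinarith
    · refine ⟨((Finset.Ico (x - r * (i + 1)) (x - r * i)) ∪
        (Finset.Ioc (x + r * i) (x + r * (i + 1)))).image
          (fun y : ℤ => Finsupp.single y (1 : ZMod p)), ?_, ?_⟩
      · refine Finset.card_image_le.trans ((Finset.card_union_le _ _).trans ?_)
        rw [Int.card_Ico, Int.card_Ioc]
        have e1 : (x - r * i - (x - r * (i + 1)) : ℤ) = r := by ring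
        have e2 : (x + r * (i + 1) - (x + r * i) : ℤ) = r := by ring
        rw [e1, e2]
        simp
        omega
      · rw [Submodule.span_le]
        rintro _ ⟨y, hy, rfl⟩
        rw [Set.mem_Icc] at hy
        push_cast at hy
        by_cases h1 : x - r * i ≤ y ∧ y ≤ x + r * i
        · exact Submodule.mem_sup_left (hmemF x i y h1.1 h1.2)
        · refine Submodule.mem_sup_right (Submodule.subset_span ?_)
          rw [Finset.mem_coe, Finset.mem_image]
          refine ⟨y, ?_, rfl⟩
          rw [Finset.mem_union, Finset.mem_Ico, Finset.mem_Ioc]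
          by_cases h2 : x - r * i ≤ y
          · right
            exact ⟨by by_contra h3; exact h1 ⟨h2, by omega⟩, hy.2⟩
          · left
            exact ⟨hy.1, by omega⟩
  -- the orbits are uniformly bounded
  have hbdd : ∀ (g : P) (x : ℤ), |φ g x - x| ≤ ((r * N : ℕ) : ℤ) := by
    intro g x
    obtain ⟨U, h1, h2, h3⟩ := hN _ _ _ ρ (F x) (hnar x)
    have hUfin : FiniteDimensional (ZMod p) U := by
      have : FiniteDimensional (ZMod p) (F x N) :=
        Module.Finite.iff_fg.2 (Submodule.fg_span ((Set.finite_Icc _ _).image _))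
      exact Submodule.finiteDimensional_of_le h2
    have hinj : ∀ g : P, Function.Injective (ρ g) := by
      intro g
      have h4 : ρ g⁻¹ * ρ g = 1 := by rw [← map_mul, inv_mul_cancel, map_one]
      exact Function.LeftInverse.injective (g := ρ g⁻¹) (fun m => LinearMap.congr_fun h4 m)
    have hall : ∀ g : P, U.map (ρ g) = U := by
      intro g
      have hg : g ∈ Subgroup.closure (S : Set P) := by rw [hS]; exact Subgroup.mem_top g
      induction hg using Subgroup.closure_induction with
      | mem s hs =>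
        exact Submodule.eq_of_le_of_finrank_eq (h3 s hs)
          (LinearEquiv.finrank_eq (Submodule.equivMapOfInjective (ρ s) (hinj s) U)).symm
      | one => rw [map_one]; exact Submodule.map_id U
      | mul a b _ _ ha hb =>
        rw [map_mul]
        have : (ρ a * ρ b : Module.End (ZMod p) (ℤ →₀ ZMod p)) = (ρ a) ∘ₗ (ρ b) := rfl
        rw [this, Submodule.map_comp, hb, ha]
      | inv a _ ha =>
        conv_lhs => rw [← ha]
        rw [← Submodule.map_comp]
        have : ρ a⁻¹ ∘ₗ ρ a = LinearMap.id := by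
          have h4 : ρ a⁻¹ * ρ a = 1 := by rw [← map_mul, inv_mul_cancel, map_one]
          exact h4
        rw [this, Submodule.map_id]
    have h4 : Finsupp.single x (1 : ZMod p) ∈ U := h1 (hmemF x 0 x (by simp) (by simp))
    have h5 : Finsupp.single (φ g x) (1 : ZMod p) ∈ U := by
      rw [← hall g, ← hρ]
      exact Submodule.mem_map_of_mem h4
    have h6 : F x N ≤ Finsupp.supported (ZMod p) (ZMod p) (Set.Icc (x - r * N) (x + r * N)) := by
      rw [Submodule.span_le]
      rintro _ ⟨y, hy, rfl⟩
      exact Finsupp.single_mem_supported _ _ hy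
    have h7 := h6 (h2 h5)
    have h8 : φ g x ∈ Set.Icc (x - r * N : ℤ) (x + r * N) := by
      have h9 := (Finsupp.mem_supported _ _).1 h7
      apply h9
      rw [Finset.mem_coe, Finsupp.support_single _ one_ne_zero]
      exact Finset.mem_singleton_self _
    rw [Set.mem_Icc] at h8
    rw [abs_le]
    push_cast
    constructor <;> omega
  exact hinf (MP331e4f.finite_range_of_bdd hfg φ hbdd)

/-- Let `K` be a field and `G` a nontrivial group. (1) If `J(K[G]) = omega(K[G])` then `K` has prime
characteristic `p` and for every section `P` of `G`, finite subset `S` of `P` and `C` there is `N` such that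
for every linear action of `P` over `F_p` and every narrow filtration `F 0 ≤ ... ≤ F N` some
`S`-invariant subspace lies between `F 0` and `F N`. (2) If all infinite finitely generated subgroups of `G`
have narrow modules, then Kaplansky's equivalence holds for `K` and `G`. (3) Finitely generated groups with
infinite image in the group of permutations of `ℤ` of bounded displacement have narrow modules. -/
theorem result (K : Type*) [Field K] (G : Type*) [Group G] [Nontrivial G] :
    ((Ideal.jacobson (⊥ : Ideal (MonoidAlgebra K G)) =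
        Ideal.span (Set.range (fun g : G => MonoidAlgebra.of K G g - 1))) →
      ∃ p : ℕ, p.Prime ∧ CharP K p ∧
        ∀ (H : Subgroup G) (P : Type v) [Group P] (f : H →* P), Function.Surjective f →
          ∀ (S : Finset P) (C : ℕ), ∃ N : ℕ, ∀ (M : Type u) [AddCommGroup M] [Module (ZMod p) M]
            (ρ : P →* (M →ₗ[ZMod p] M)) (F : ℕ → Submodule (ZMod p) M), Narrow S ρ C N F →
            ∃ U : Submodule (ZMod p) M, F 0 ≤ U ∧ U ≤ F N ∧ ∀ s ∈ S, U.map (ρ s) ≤ U) ∧
    ((∀ p : ℕ, p.Prime → CharP K p → ∀ P : Subgroup G, P.FG → Infinite P → HasNarrow p P) →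
      ((Ideal.jacobson (⊥ : Ideal (MonoidAlgebra K G)) =
          Ideal.span (Set.range (fun g : G => MonoidAlgebra.of K G g - 1))) ↔
        ∃ p : ℕ, p.Prime ∧ CharP K p ∧ IsPGroup p G ∧
          ∀ H : Subgroup G, H.FG → Finite H)) ∧
    (∀ p : ℕ, p.Prime → ∀ (P : Type w) [Group P], Group.FG P → ∀ φ : P →* Equiv.Perm ℤ,
      (∀ g, BddDisp (φ g)) → (Set.range φ).Infinite → HasNarrow p P) := by
  have haug : (Ideal.jacobson (⊥ : Ideal (MonoidAlgebra K G)) =
        Ideal.span (Set.range (fun g : G => MonoidAlgebra.of K G g - 1))) → AugRad K G := by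
    intro h g
    rw [← Ideal.jacobson_bot, h]
    exact Ideal.subset_span ⟨g, rfl⟩
  refine ⟨fun h => ?_, fun hG => ⟨fun h => ?_, ?_⟩, ?_⟩
  · obtain ⟨p, hp, hchar, -⟩ := (haug h).exists_prime
    have : Fact p.Prime := ⟨hp⟩
    refine ⟨p, hp, hchar, fun H P _ f hf S C => ?_⟩
    let _ : Algebra (ZMod p) K := ZMod.algebra K p
    exact uniform (MP331e4fBw.augRad_descend (ZMod p)
      (MP331e4fAm.augRad_of_surjective ((haug h).restrict H) f hf)) S C
  · obtain ⟨p, hp, hchar, hpG⟩ := (haug h).exists_prime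
    refine ⟨p, hp, hchar, hpG, fun H hH => ?_⟩
    by_contra hinf
    have hinf' : Infinite H := not_finite_iff_infinite.1 hinf
    have : Fact p.Prime := ⟨hp⟩
    obtain ⟨S, C, hSC⟩ := hG p hp hchar H hH hinf'
    let _ : Algebra (ZMod p) K := ZMod.algebra K p
    obtain ⟨N, hN⟩ := uniform.{0} (MP331e4fBw.augRad_descend (ZMod p) ((haug h).restrict H)) S C
    obtain ⟨M, _, _, ρ, F, h1, h2⟩ := hSC N
    exact h2 (hN M ρ F h1)
  · rintro ⟨p, hp, hchar, hpG, hloc⟩
    exact MP331e4f.jacobson_eq_of_locallyFinite hp hpG hloc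
  · intro p hp P _ hfg φ h1 h2
    have : Fact p.Prime := ⟨hp⟩
    exact hasNarrow_of_bddDisp p hfg φ h1 h2

end Pool.Agent.Results.MP_331e4f_al.BoundedWidth
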