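import Pool.Agent.Lib_MP_331e4f_bw.Reduce
import Pool.Agent.Lib_MP_331e4f_bw.Trans
import Pool.Agent.Lib_MP_331e4f_bw.Descend
import Pool.Agent.Lib_MP_331e4f_al.PGroup
import Pool.Agent.Lib_MP_331e4f_am.Central

/-!
# Reduction of Kaplansky's question to just infinite groups

The proof: `J = omega` gives `p`-groups all of whose finitely generated subgroups have a Frattini
quotient as finite `p`-groups (Nakayama), so a finitely generated just infinite section is residually
finite. If it is not hereditarily just infinite, then it has two commuting subgroups which are not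
locally finite. Of two commuting subgroups one is thin: otherwise there are matrices `T`, `T'` over the
two augmentation ideals and vectors with `T^n x ≠ 0`, `T'^n x' ≠ 0` for all `n`, and the inverse of
`1 - T ⊗ T'` is not finitely supported. The just infinite quotients of infinite finitely generated
subgroups of the thin one are thin.
-/

namespace Pool.Agent.Results.MP_331e4f_al.Reduction

open MP331e4f (aug AugRad)

/-- infinite, and every nontrivial normal subgroup has finite index -/
def JustInf (Q : Type*) [Group Q] : Prop :=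
  Infinite Q ∧ ∀ N : Subgroup Q, N.Normal → N ≠ ⊥ → N.FiniteIndex

/-- every nontrivial normal subgroup of every subgroup of finite index has finite index -/
def Hereditary (Q : Type*) [Group Q] : Prop :=
  ∀ L : Subgroup Q, L.FiniteIndex → ∀ N : Subgroup L, N.Normal → N ≠ ⊥ → N.FiniteIndex

/-- residually finite -/
def ResFin (Q : Type*) [Group Q] : Prop :=
  ∀ g : Q, g ≠ 1 → ∃ N : Subgroup Q, N.Normal ∧ N.FiniteIndex ∧ g ∉ N

/-- `Q` is thin (for `p`): all square matrices with entries in the augmentation ideal of `F_p[Q]` are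
nilpotent. -/
def Thin (p : ℕ) (Q : Type*) [Group Q] : Prop :=
  ∀ (d : ℕ) (T : Matrix (Fin d) (Fin d) (MonoidAlgebra (ZMod p) Q)),
    (∀ i j, T i j ∈ Ideal.span (Set.range (fun g : Q => MonoidAlgebra.of (ZMod p) Q g - 1))) →
    IsNilpotent T

theorem thin_of {p : ℕ} [Fact p.Prime] {H : Type*} [Group H] (h : MP331e4fBw.Thin p H) :
    Thin p H := by
  intro d T hT
  refine h d T fun i j => ?_
  have key : Ideal.span (Set.range (fun g : H => MonoidAlgebra.of (ZMod p) H g - 1)) ≤
      RingHom.ker (aug (ZMod p) H).toRingHom := by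
    rw [Ideal.span_le]
    rintro _ ⟨g, rfl⟩
    show (aug (ZMod p) H) _ = 0
    rw [map_sub, map_one, MP331e4f.aug_of, sub_self]
  exact key (hT i j)

theorem augRad_of_eq {F G : Type*} [Field F] [Group G]
    (h : Ideal.jacobson (⊥ : Ideal (MonoidAlgebra F G)) =
      Ideal.span (Set.range (fun g : G => MonoidAlgebra.of F G g - 1))) : AugRad F G := by
  intro g
  rw [← Ideal.jacobson_bot, h]
  exact Ideal.subset_span ⟨g, rfl⟩

theorem eq_of_augRad {F G : Type*} [Field F] [Group G] (h : AugRad F G) :
    Ideal.jacobson (⊥ : Ideal (MonoidAlgebra F G)) =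
      Ideal.span (Set.range (fun g : G => MonoidAlgebra.of F G g - 1)) := by
  apply le_antisymm
  · intro x hx
    apply MP331e4f.mem_span_of_aug
    by_contra hc
    rw [Ideal.jacobson_bot] at hx
    obtain ⟨z, hz⟩ := MP331e4f.mem_rad_iff.1 hx
      (-(algebraMap F (MonoidAlgebra F G) (aug F G x)⁻¹))
    have h1 := congrArg (aug F G) hz
    simp only [map_add, map_mul, map_neg, map_one, AlgHom.commutes, Algebra.algebraMap_self,
      RingHom.id_apply] at h1
    rw [mul_neg, neg_mul, mul_assoc, inv_mul_cancel₀ hc, mul_one, neg_add_cancel] at h1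
    exact zero_ne_one h1
  · rw [Ideal.span_le]
    rintro _ ⟨g, rfl⟩
    rw [Ideal.jacobson_bot]
    exact h g

/-- If `J(K[G]) = omega(K[G])`, `G` nontrivial, then `K` has prime characteristic `p`, `G` is a
`p`-group, every proper subgroup `H` of a finitely generated subgroup `P` of `G` lies in a normal
subgroup of index `p` of `P`, and if `G` is not locally finite, then it has a finitely generated, just
infinite, residually finite section `Q` with `J(K[Q]) = omega(K[Q])`, such that `Q` is thin, or `Q` is
hereditarily just infinite and `K` is algebraic over its prime field. -/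
theorem result (K : Type*) [Field K] (G : Type*) [Group G] [Nontrivial G]
    (h : Ideal.jacobson (⊥ : Ideal (MonoidAlgebra K G)) =
        Ideal.span (Set.range (fun g : G => MonoidAlgebra.of K G g - 1))) :
    ∃ p : ℕ, p.Prime ∧ CharP K p ∧ IsPGroup p G ∧
      (∀ P H : Subgroup G, P.FG → H < P →
        ∃ N : Subgroup G, H ≤ N ∧ N ≤ P ∧ (N.subgroupOf P).Normal ∧ N.relIndex P = p) ∧
      ((∃ P₀ : Subgroup G, P₀.FG ∧ Infinite P₀) →
        ∃ (P : Subgroup G) (N : Subgroup P) (_ : N.Normal),
          Ideal.jacobson (⊥ : Ideal (MonoidAlgebra K (P ⧸ N))) =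
            Ideal.span (Set.range (fun g : P ⧸ N => MonoidAlgebra.of K (P ⧸ N) g - 1)) ∧
          Group.FG (P ⧸ N) ∧ JustInf (P ⧸ N) ∧ ResFin (P ⧸ N) ∧
          (Thin p (P ⧸ N) ∨
            Hereditary (P ⧸ N) ∧ Algebra.IsAlgebraic (⊥ : Subfield K) K)) := by
  have haug : AugRad K G := augRad_of_eq h
  obtain ⟨p, hp, hchar, hpG⟩ := haug.exists_prime
  have : Fact p.Prime := ⟨hp⟩
  let _ : Algebra (ZMod p) K := ZMod.algebra K p
  have hp' : AugRad (ZMod p) G := MP331e4fBw.augRad_descend (ZMod p) haug
  refine ⟨p, hp, hchar, hpG, fun P H hP hH => haug.exists_normal' hp hP hH, ?_⟩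
  rintro ⟨P₀, hP₀, hinf⟩
  obtain ⟨P, N, hN, h1, h2, h3, h4⟩ := MP331e4fBw.reduction hp' P₀ hP₀
  have hπ : Function.Surjective (QuotientGroup.mk' N) := QuotientGroup.mk'_surjective N
  have hK : AugRad K (P ⧸ N) := MP331e4fAm.augRad_of_surjective (haug.restrict P) _ hπ
  have hpQ : AugRad (ZMod p) (P ⧸ N) := MP331e4fAm.augRad_of_surjective (hp'.restrict P) _ hπ
  refine ⟨P, N, hN, eq_of_augRad hK, h1, h2, h3, ?_⟩
  rcases h4 with h4 | h4
  · exact Or.inl (thin_of h4)
  by_cases halg : Algebra.IsAlgebraic (⊥ : Subfield K) K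
  · exact Or.inr ⟨h4, halg⟩
  left
  rw [Algebra.isAlgebraic_def] at halg
  push Not at halg
  obtain ⟨x, hx⟩ := halg
  refine thin_of (MP331e4fBw.thin_of_transcendental (x := x) ?_ hK hpQ)
  intro hx'
  apply hx
  obtain ⟨f, hf, hfx⟩ := hx'
  let φ : ZMod p →+* (⊥ : Subfield K) := ZMod.castHom (dvd_refl p) _
  refine ⟨f.map φ, (Polynomial.map_ne_zero_iff φ.injective).2 hf, ?_⟩
  rw [Polynomial.aeval_def, Polynomial.eval₂_map]
  rw [Polynomial.aeval_def] at hfx
  rw [← hfx]
  congr 1
  exact Subsingleton.elim _ _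

end Pool.Agent.Results.MP_331e4f_al.Reduction
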