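import Pool.Agent.Lib_MP_331e4f_sp.Main
import Pool.Agent.Lib_MP_331e4f_sp.Fld
import Pool.Agent.Lib_MP_331e4f_al.PGroup

/-!
# Groups acting on the `p`-regular tree with a rooted and with directed elements

The proof: let `α` be the sum of the powers of the rooted element `a`, and `T i` the sum of the
powers of the directed element `b i`. Consider `x = ζ - ζ ^ 2 α + Σ γ_i T_i`, with coefficients in a
finite field `L` of characteristic `p`, the `γ_i` in a proper subfield `S`, linearly independent over
the prime field, and `ζ` not in `S`. Its augmentation is `ζ`. The Schur complement of `x` on the words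
which do not begin with the letter `o` is `κ' - l' α + Σ γ_i T_i'` with
`κ' = κ^2 / (κ + l)`, `l' = - Γ l^2 / (κ + l)^2`, `Γ` a nonzero element of `S`, so that `l / κ ^ 2`
stays in `S` and `κ / l` stays outside of `S`, and `κ + l` never vanishes. It follows that the entry
of the inverse of `x` at `(o^(n+1), o^n u)` is not zero, for every `n`; but an element of the group
maps `o^n u` to `o^(n+1)` for at most one `n`.
-/

namespace Pool.Agent.Results.MP_331e4f_al.SpinalGroups

open MP331e4fSp

/-- Let `X` be a set with `p` elements, `p` a prime, `o` an element of `X`. Let a subgroup `P` of `G`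
act on the tree of words over `X`, such that some `a` in `P` acts as rooted permutation `σ` of order
`p`, and finitely many elements `b i` of `P` as directed permutations, with rooted permutations
`e i n x` with `(e i n x) ^ p = 1` at the vertices `o^n x`; and for all `n` there are `i` and `x ≠ o`
with `e i n x ≠ 1`. Then `J(K[G]) ≠ omega(K[G])` for all fields `K`. -/
theorem result (p : ℕ) (hp : p.Prime) (X : Type*) [Fintype X] [DecidableEq X]
    (hX : Fintype.card X = p) (o : X) (G : Type*) [Group G] (P : Subgroup G)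
    (φ : P →* Equiv.Perm (List X)) (hφ : ∀ g : P, IsTreeAut (φ g))
    (a : P) (σ : Equiv.Perm X) (hσ : σ ^ p = 1) (hσ1 : σ ≠ 1) (ha : ∀ w, φ a w = rooted σ w)
    (r : ℕ) (b : Fin r → P) (e : Fin r → ℕ → X → Equiv.Perm X)
    (he : ∀ i n x, (e i n x) ^ p = 1) (hb : ∀ i w, φ (b i) w = directed o (e i) w)
    (hne : ∀ n : ℕ, ∃ i : Fin r, ∃ x : X, x ≠ o ∧ e i n x ≠ 1)
    (K : Type*) [Field K] :
    Ideal.jacobson (⊥ : Ideal (MonoidAlgebra K G)) ≠
      Ideal.span (Set.range (fun g : G => MonoidAlgebra.of K G g - 1)) := by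
  intro h
  have haugG : MP331e4f.AugRad K G := by
    intro g
    rw [← Ideal.jacobson_bot, h]
    exact Ideal.subset_span ⟨g, rfl⟩
  have haug : MP331e4f.AugRad K P := haugG.restrict P
  have hiter : ∀ (k : ℕ) (x : X), φ (a ^ k) [x] = [(σ ^ k) x] := by
    intro k x
    rw [← rooted_iterate, map_pow]
    induction k with
    | zero => rfl
    | succ k ih => rw [pow_succ', Equiv.Perm.mul_apply, ih, ha, Function.iterate_succ_apply']
  have hpow : ∀ k : ℕ, a ^ k = 1 → p ∣ k := by
    intro k hk
    have : Fact p.Prime := ⟨hp⟩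
    rw [← orderOf_eq_prime hσ hσ1]
    apply orderOf_dvd_of_pow_eq_one
    ext x
    have h1 := hiter k x
    rw [hk, map_one, Equiv.Perm.one_apply, List.cons.injEq] at h1
    exact h1.1.symm
  have hnt : Nontrivial P := by
    refine ⟨⟨a, 1, fun h1 => ?_⟩⟩
    have h2 := hpow 1 (by rw [pow_one]; exact h1)
    exact hp.one_lt.ne' (Nat.dvd_one.1 h2)
  obtain ⟨q, hq, hchar, hqP⟩ := haug.exists_prime
  have hpq : p = q := by
    obtain ⟨k, hk⟩ := hqP a
    exact (Nat.prime_dvd_prime_iff_eq hp hq).1 (hp.dvd_of_dvd_pow (hpow _ hk))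
  subst hpq
  obtain ⟨L, _, _, S, ζ, γ, d, hd, ρ, hζ, hγS, hγ⟩ := exists_fields hp r K
  exact main_lemma hp haug hX o φ hφ a σ hσ hσ1 ha b e he hb hne S ζ hζ γ hγS hγ hd ρ

end Pool.Agent.Results.MP_331e4f_al.SpinalGroups
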