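import Pool.Agent.Lib_MP_331e4f_bw.Loewy
import Pool.Agent.Lib_MP_331e4f_bw.Trans
import Pool.Agent.Lib_MP_331e4f_bw.Pair
import Pool.Agent.Lib_MP_331e4f_bw.Fields
import Pool.Agent.Lib_MP_331e4f_bw.Tree
import Pool.Agent.Lib_MP_331e4f_bw.ThinAmen
import Pool.Agent.Lib_MP_331e4f_bw.ThinWords
import Pool.Agent.Lib_MP_331e4f_bw.Words
import Pool.Agent.Lib_MP_331e4f_bw.Close
import Pool.Agent.Lib_MP_331e4f_bw.FinIdx
import Pool.Agent.Lib_MP_331e4f_bw.Descend
import Pool.Agent.Lib_MP_331e4f_al.PGroup
import Pool.Agent.Lib_MP_331e4f_am.Central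

/-!
# Groups all of whose square matrices over the augmentation ideal are nilpotent

The proofs. Commuting subgroups: if `T`, `T'` are matrices over the augmentation ideals of `F_p[H]`,
`F_p[H']` and `T^n x ≠ 0`, `T'^n x' ≠ 0` for all `n`, then the inverse of `1 - T ⊗ T'` would not be
finitely supported. The same with a transcendental element of `K` instead of `T'`. Finiteness of the
sets of points: if infinitely many points `x` are reached from `x₁` by at least one and at most `m`
words, then with two algebraically independent elements of `K` the coefficients of the words to `x` can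
be prevented from cancelling, while the inverse of `1 - y` has finite support. Bounded Loewy length:
blow-ups with generic matrices over a finite field, and Hall's condition. Amenability: a nonamenable
group has an injective square matrix with entries in the augmentation ideal.
-/

namespace Pool.Agent.Results.MP_331e4f_al.ThinGroups

open MP331e4f (aug AugRad)

universe u v w

/-- `J(F[G]) = omega(F[G])`: the Jacobson radical of `F[G]` is the augmentation ideal. -/
def JOmega (F G : Type*) [Field F] [Group G] : Prop :=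
  Ideal.jacobson (⊥ : Ideal (MonoidAlgebra F G)) =
    Ideal.span (Set.range (fun g : G => MonoidAlgebra.of F G g - 1))

/-- `H` is thin (for `p`): all square matrices with entries in the augmentation ideal of `F_p[H]` are
nilpotent. -/
def Thin (p : ℕ) (H : Type*) [Group H] : Prop :=
  ∀ (d : ℕ) (T : Matrix (Fin d) (Fin d) (MonoidAlgebra (ZMod p) H)),
    (∀ i j, T i j ∈ Ideal.span (Set.range (fun g : H => MonoidAlgebra.of (ZMod p) H g - 1))) →
    IsNilpotent T

open Classical in
/-- Følner's condition: `G` is amenable. -/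
def Amenable (G : Type*) [Group G] : Prop :=
  ∀ (S : Finset G) (ε : ℝ), 0 < ε →
    ∃ F : Finset G, F.Nonempty ∧ ∀ s ∈ S, ((F.filter fun g => s * g ∉ F).card : ℝ) ≤ ε * F.card

/-- the submodules `ω^n V` of a linear action of `H` over `F_p` -/
def powOmega {p : ℕ} {H : Type*} [Group H] {V : Type*} [AddCommGroup V] [Module (ZMod p) V]
    (ρ : H →* (V →ₗ[ZMod p] V)) : ℕ → Submodule (ZMod p) V
  | 0 => ⊤
  | n + 1 => ⨆ g : H, (powOmega ρ n).map (ρ g - 1)

/-- Bounded Loewy length in bounded width: for every `C` there is `N` such that, for every linear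
action of `H` on a vector space `V` over `F_p` and every `a`, if for `a ≤ i ≤ a + N` the space `ω^i V`
is spanned by `ω^(i+1) V` and at most `C` vectors, then `ω^n V = ω^(n+1) V` for some `n ≤ a + N`. -/
def BoundedLoewy (p : ℕ) (H : Type*) [Group H] : Prop :=
  ∀ C : ℕ, ∃ N : ℕ, ∀ (V : Type u) [AddCommGroup V] [Module (ZMod p) V]
    (ρ : H →* (V →ₗ[ZMod p] V)) (a : ℕ),
    (∀ i, a ≤ i → i ≤ a + N → ∃ X : Finset V, X.card ≤ C ∧
      powOmega ρ i ≤ powOmega ρ (i + 1) ⊔ Submodule.span (ZMod p) (X : Set V)) →
    ∃ n ≤ a + N, powOmega ρ n = powOmega ρ (n + 1)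

open Classical in
/-- `H` acts on the tree of words over `Z/p` by `w z ↦ (g w) (z + c g w)`, and on every level `n` some
element of `H` has a non-zero sum of its labels `c g w`. -/
def FullLabels (p : ℕ) [NeZero p] (H : Type*) [Group H] : Prop :=
  ∃ (φ : H →* Equiv.Perm (List (ZMod p))) (c : H → List (ZMod p) → ZMod p),
    (∀ g, φ g [] = []) ∧ (∀ g w z, φ g (w ++ [z]) = φ g w ++ [z + c g w]) ∧
    ∀ n : ℕ, ∃ g : H, ∑ w : Fin n → ZMod p, c g (List.ofFn w) ≠ 0

/-- `Q` has two commuting subgroups `P₁`, `P₂` which map onto one subgroup `L` of finite index. -/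
def TwoCommuting (Q : Type*) [Group Q] : Prop :=
  ∃ (L P₁ P₂ : Subgroup Q) (f₁ : P₁ →* L) (f₂ : P₂ →* L), L.FiniteIndex ∧
    (∀ a ∈ P₁, ∀ b ∈ P₂, a * b = b * a) ∧ Function.Surjective f₁ ∧ Function.Surjective f₂

/-- `words S x₁ x n`: the number of words `s₁ ⋯ sₙ` of length `n` over `S` with `s₁ ⋯ sₙ x₁ = x` -/
noncomputable def words {H : Type*} [Group H] (S : Finset H) {X : Type*} [MulAction H X]
    (x₁ x : X) (n : ℕ) : ℕ :=
  Nat.card {w : Fin n → S // (List.ofFn fun i => (w i : H)).prod • x₁ = x}

/-- For all but finitely many points `x` of an `H`-set, the number of words of length `n` which lead from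
`x₁` to `x` is `0` or more than `m`, for all `n`. -/
def ManyWords (H : Type*) [Group H] : Prop :=
  ∀ (S : Finset H) (X : Type u) [MulAction H X] (x₁ : X) (m : ℕ),
    {x : X | ∃ n, 0 < words S x₁ x n ∧ words S x₁ x n ≤ m}.Finite

/-- For all but finitely many points `x` of an `H`-set, the number of words of length `n` which lead from
`x₁` to `x` is divisible by `p`, for all `n`. -/
def DivisibleWords (p : ℕ) (H : Type*) [Group H] : Prop :=
  ∀ (S : Finset H) (X : Type u) [MulAction H X] (x₁ : X), {x : X | ∃ n, ¬ p ∣ words S x₁ x n}.Finite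

theorem thin_iff {p : ℕ} [Fact p.Prime] {H : Type*} [Group H] :
    Thin p H ↔ MP331e4fBw.Thin p H := by
  constructor
  · intro h d T hT
    exact h d T fun i j => MP331e4f.mem_span_of_aug (hT i j)
  · intro h d T hT
    refine h d T fun i j => ?_
    have key : Ideal.span (Set.range (fun g : H => MonoidAlgebra.of (ZMod p) H g - 1)) ≤
        RingHom.ker (aug (ZMod p) H).toRingHom := by
      rw [Ideal.span_le]
      rintro _ ⟨g, rfl⟩
      show (aug (ZMod p) H) _ = 0
      rw [map_sub, map_one, MP331e4f.aug_of, sub_self]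
    exact key (hT i j)

theorem powOmega_eq {p : ℕ} {H : Type*} [Group H] [Fact p.Prime] {V : Type*} [AddCommGroup V]
    [Module (ZMod p) V] (ρ : H →* (V →ₗ[ZMod p] V)) (n : ℕ) :
    powOmega ρ n = MP331e4fBw.loewy ρ n := by
  induction n with
  | zero => rfl
  | succ n ih =>
    show ⨆ g : H, (powOmega ρ n).map (ρ g - 1) = ⨆ g : H, (MP331e4fBw.loewy ρ n).map (ρ g - 1)
    rw [ih]

theorem boundedLoewy {p : ℕ} [Fact p.Prime] {H : Type*} [Group H] (h : MP331e4fBw.Thin p H)
    (hfg : Group.FG H) : BoundedLoewy.{u} p H := by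
  intro C
  obtain ⟨N, hN⟩ := MP331e4fBw.thin_loewy.{u} h hfg C
  refine ⟨N, fun V _ _ ρ a hX => ?_⟩
  obtain ⟨n, hn, hn'⟩ := hN V ρ a (fun i hi hi' => by
    obtain ⟨X, hXc, hXs⟩ := hX i hi hi'
    rw [powOmega_eq, powOmega_eq] at hXs
    set A := MP331e4fBw.loewy ρ i
    set B := MP331e4fBw.loewy ρ (i + 1)
    -- the quotient embeds in the image of the span of `X` in `V / B`
    let g : A →ₗ[ZMod p] V ⧸ B := B.mkQ ∘ₗ A.subtype
    have hker : LinearMap.ker g = B.comap A.subtype := by
      ext x
      simp [g]
    have e1 : (↥A ⧸ B.comap A.subtype) ≃ₗ[ZMod p] LinearMap.range g :=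
      (Submodule.quotEquivOfEq _ _ hker.symm).trans g.quotKerEquivRange
    have h1 : LinearMap.range g ≤ (Submodule.span (ZMod p) (X : Set V)).map B.mkQ := by
      rintro _ ⟨x, rfl⟩
      obtain ⟨b, hb, y, hy, hxy⟩ := Submodule.mem_sup.1 (hXs x.2)
      refine ⟨y, hy, ?_⟩
      show B.mkQ y = B.mkQ (x : V)
      have hb0 : B.mkQ b = 0 := (Submodule.Quotient.mk_eq_zero B).2 hb
      rw [← hxy, map_add, hb0, zero_add]
    calc Module.rank (ZMod p) (↥A ⧸ B.comap A.subtype)
        = Module.rank (ZMod p) (LinearMap.range g) := e1.rank_eq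
      _ ≤ Module.rank (ZMod p) ↥((Submodule.span (ZMod p) (X : Set V)).map B.mkQ) :=
          Submodule.rank_mono h1
      _ ≤ Module.rank (ZMod p) ↥(Submodule.span (ZMod p) (X : Set V)) :=
          rank_map_le _ _
      _ ≤ (X.card : Cardinal) := rank_span_finset_le X
      _ ≤ (C : Cardinal) := by exact_mod_cast hXc)
  exact ⟨n, hn, by rw [powOmega_eq, powOmega_eq]; exact hn'⟩

theorem augRad_of_eq {F G : Type*} [Field F] [Group G] (h : JOmega F G) : AugRad F G := by
  intro g
  rw [← Ideal.jacobson_bot, h]
  exact Ideal.subset_span ⟨g, rfl⟩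

theorem eq_of_augRad {F G : Type*} [Field F] [Group G] (h : AugRad F G) : JOmega F G := by
  apply le_antisymm
  · intro x hx
    apply MP331e4f.mem_span_of_aug
    by_contra hc
    rw [Ideal.jacobson_bot] at hx
    obtain ⟨z, hz⟩ := MP331e4f.mem_rad_iff.1 hx
      (-(algebraMap F (MonoidAlgebra F G) (aug F G x)⁻¹))
    have h1 := congrArg (aug F G) hz
    simp only [map_add, map_mul, map_neg, map_one, AlgHom.commutes, Algebra.algebraMap_self,
      RingHom.id_apply] at h1
    rw [mul_neg, neg_mul, mul_assoc, inv_mul_cancel₀ hc, mul_one, neg_add_cancel] at h1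
    exact zero_ne_one h1
  · rw [Ideal.span_le]
    rintro _ ⟨g, rfl⟩
    rw [Ideal.jacobson_bot]
    exact h g

/-- Let `K` be a field of characteristic `p > 0`. (1) If `J(K[G]) = omega(K[G])` and `Q` is a section
of `G`, then of every subgroup `H` of `Q` and its centralizer in `Q` one is thin; `Q` is thin if two
commuting subgroups of `Q` map onto a subgroup of finite index of `Q`, or if `K` is not algebraic over
`F_p`; if `K` has transcendence degree at least `2` over `F_p`, then for all `m` and for all but finitely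
many points `x` of a `Q`-set and all `n` the number of words of length `n` leading from `x₁` to `x` is `0` or
more than `m`. (2) The condition `J(K[H]) = omega(K[H])` is the same for all algebraic `K`, and for `K` of
transcendence degree `1` it means that `H` is thin. (3) If `H` is thin, then `H` is amenable, the number
of words leading to `x` is divisible by `p` for all but finitely many `x`, and if `H` is finitely
generated, then it has bounded Loewy length in bounded width, and no action on the `p`-regular tree with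
a non-zero label sum on each level. -/
theorem result (p : ℕ) [Fact p.Prime] (K : Type*) [Field K] [Algebra (ZMod p) K] :
    (∀ (G : Type v) [Group G], JOmega K G →
      ∀ (P : Subgroup G) (Q : Type w) [Group Q] (f : P →* Q), Function.Surjective f →
        (∀ H : Subgroup Q, Thin p H ∨ Thin p (Subgroup.centralizer (H : Set Q))) ∧
        (TwoCommuting Q → Thin p Q) ∧
        (¬ Algebra.IsAlgebraic (ZMod p) K → Thin p Q) ∧
        ((∃ s t : K, AlgebraicIndependent (ZMod p) ![s, t]) → ManyWords.{u} Q)) ∧
    (∀ (H : Type v) [Group H],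
      (Algebra.IsAlgebraic (ZMod p) K → (JOmega K H ↔ JOmega (ZMod p) H)) ∧
      (Algebra.trdeg (ZMod p) K = 1 → (JOmega K H ↔ Thin p H))) ∧
    (∀ (H : Type v) [Group H], Thin p H → Amenable H ∧ DivisibleWords.{u} p H ∧
      (Group.FG H → BoundedLoewy.{u} p H ∧ ¬ FullLabels p H)) := by
  classical
  have hp : p.Prime := Fact.out
  have hcK : CharP K p := charP_of_injective_algebraMap (algebraMap (ZMod p) K).injective p
  refine ⟨fun G _ hJ P Q _ f hf => ?_, fun H _ => ⟨fun halg => ⟨fun h => ?_, fun h => ?_⟩,
    fun htr => ?_⟩, fun H _ h => ?_⟩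
  · have hK : AugRad K Q := MP331e4fAm.augRad_of_surjective ((augRad_of_eq hJ).restrict P) f hf
    have hp' : AugRad (ZMod p) Q := MP331e4fBw.augRad_descend (ZMod p) hK
    refine ⟨fun H => ?_, fun ⟨L, P₁, P₂, f₁, f₂, hL, hc, hf₁, hf₂⟩ => ?_, fun hna => ?_,
      fun ⟨s, t, hst⟩ S X _ x₁ m => ?_⟩
    · rw [thin_iff, thin_iff]
      exact MP331e4fBw.thin_or_thin_centralizer hp' H
    · rw [thin_iff]
      have hLthin : MP331e4fBw.Thin p L := by
        rcases MP331e4fBw.thin_or_thin_centralizer hp' P₁ with h1 | h1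
        · exact h1.of_surjective f₁ hf₁
        · have hle : P₂ ≤ Subgroup.centralizer (P₁ : Set Q) := by
            intro b hb
            rw [Subgroup.mem_centralizer_iff]
            exact fun a ha => hc a ha b hb
          have h2 := h1.subgroup (P₂.subgroupOf (Subgroup.centralizer (P₁ : Set Q)))
          have h3 : MP331e4fBw.Thin p P₂ :=
            h2.of_surjective (Subgroup.subgroupOfEquivOfLe hle).toMonoidHom
              (Subgroup.subgroupOfEquivOfLe hle).surjective
          exact h3.of_surjective f₂ hf₂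
      refine MP331e4fBw.Thin.of_finiteIndex (fun g => ?_) L hLthin
      rcases subsingleton_or_nontrivial Q with h1 | h1
      · exact ⟨0, Subsingleton.elim _ _⟩
      · obtain ⟨q, hq, hchar, hqQ⟩ := hK.exists_prime
        have : q = p := CharP.eq K hchar hcK
        subst this
        exact hqQ g
    · rw [thin_iff]
      rw [Algebra.isAlgebraic_def] at hna
      push Not at hna
      obtain ⟨x, hx⟩ := hna
      exact MP331e4fBw.thin_of_transcendental hx hK hp'
    · exact MP331e4fBw.many_words hst hK S x₁ m
  · exact eq_of_augRad (MP331e4fBw.augRad_descend (ZMod p) (augRad_of_eq h))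
  · exact eq_of_augRad (MP331e4fBw.augRad_of_algebraic (augRad_of_eq h))
  · rw [thin_iff, ← MP331e4fBw.augRad_iff_thin_of_trdeg_one htr]
    exact ⟨augRad_of_eq, eq_of_augRad⟩
  · rw [thin_iff] at h
    refine ⟨h.amen, fun S X _ x₁ => h.finite_words S x₁, fun hfg => ⟨boundedLoewy h hfg, ?_⟩⟩
    rintro ⟨φ, c, h0, h1, h2⟩
    exact MP331e4fBw.not_thin_of_labels hfg φ c h0 h1 h2 h

end Pool.Agent.Results.MP_331e4f_al.ThinGroups
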